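import Pool.Agent.W831.HI.Loops
import Pool.Agent.H655R2.GOD.Main
import Pool.Agent.TH399.CC.Main

/-!
# Circuit covers: constants and near-constant weightings minus sums of circuits

`MGraph V E` (`Pool/Agent/H126R2/CDC/Defs.lean`) is a finite graph with loops and parallel edges,
`G.ends e` is the unordered pair of the ends of `e`, `G.IsCircuit C` says that `C` is the edge set of
a circuit, `G.Bridgeless` that every edge lies in a circuit, `G.deg D v` is the degree of `v` in the
edge set `D` (a loop counts twice).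
-/

set_option autoImplicit false

namespace Pool.Agent.V11162.CC.CircuitsAndNearConstant

open Finset
open Pool.Agent.H126R2.CDC (MGraph)

/-- `p` lies in the cone of the circuits. -/
def InCone {V E : Type} [Fintype V] [DecidableEq V] [Fintype E] [DecidableEq E]
    (G : MGraph V E) (p : E → ℕ) : Prop :=
  ∃ w : Finset E → ℝ, (∀ C, 0 ≤ w C) ∧ (∀ C, ¬ G.IsCircuit C → w C = 0) ∧
    ∀ e, (p e : ℝ) = ∑ C : Finset E, w C * (if e ∈ C then 1 else 0)

/-- `p` lies in the lattice of the circuits. -/
def InLat {V E : Type} [Fintype V] [DecidableEq V] [Fintype E] [DecidableEq E]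
    (G : MGraph V E) (p : E → ℕ) : Prop :=
  (fun e => (p e : ℤ)) ∈ AddSubgroup.closure
    {x : E → ℤ | ∃ C, G.IsCircuit C ∧ x = fun e => if e ∈ C then 1 else 0}

/-- Let `G` be a finite bridgeless graph (loops and parallel edges allowed), `b` a natural number,
`q` a weighting that is zero, or lies in the cone and in the lattice of the circuits and is positive
and even with `8 q e ≤ 9 q f`, or is arbitrary with `4 q e + 52 ≤ 5 q f`, for all edges `e`, `f`. Let
`C i` be finitely many circuits, `O j` finitely many edge sets with all degrees even, `n i`, `m j`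
natural numbers and `D` a finite family of circuits.  Then every weighting
`p = 2 b + q + ∑ i, (2 n i + 2 [n i is odd] - n i [e ∈ C i]) + ∑ j, m j (4 - [e ∈ O j]) +
#{X ∈ D | e ∈ X}` has a circuit cover. -/
theorem result {V E : Type} [Fintype V] [DecidableEq V] [Fintype E] [DecidableEq E]
    (G : MGraph V E) (hG : G.Bridgeless) (b : ℕ) (q : E → ℕ)
    (hq : (∀ e, q e = 0) ∨ (InCone G q ∧ InLat G q ∧
      (((∀ e, Even (q e)) ∧ (∀ e, 0 < q e) ∧ ∀ e f, 8 * q e ≤ 9 * q f) ∨
        ∀ e f, 4 * q e + 52 ≤ 5 * q f)))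
    {ι : Type} [Fintype ι] (C : ι → Finset E) (hC : ∀ i, G.IsCircuit (C i)) (n : ι → ℕ)
    {κ : Type} [Fintype κ] (O : κ → Finset E) (hO : ∀ j v, Even (G.deg (O j) v)) (m : κ → ℕ)
    (D : Multiset (Finset E)) (hD : ∀ X ∈ D, G.IsCircuit X) (p : E → ℕ)
    (hp : ∀ e, p e + ∑ i, (if e ∈ C i then n i else 0) + ∑ j, (if e ∈ O j then m j else 0) =
      2 * b + q e + ∑ i, (2 * n i + if Even (n i) then 0 else 2) + ∑ j, 4 * m j +
        D.countP (fun X => e ∈ X)) :
    ∃ F : Multiset (Finset E), (∀ X ∈ F, G.IsCircuit X) ∧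
      ∀ e, F.countP (fun X => e ∈ X) = p e := by
  classical
  -- the near-constant part
  obtain ⟨F1, hF1, hF1'⟩ : ∃ F : Multiset (Finset E), (∀ X ∈ F, G.IsCircuit X) ∧
      ∀ e, F.countP (fun X => e ∈ X) = q e := by
    rcases hq with h0 | ⟨h1, h2, ⟨h3, h4, h5⟩ | h3⟩
    · exact ⟨0, by simp, fun e => by rw [h0 e]; exact Multiset.countP_zero _⟩
    · exact (Pool.Agent.H126R2.NC.near_constant G q h3 h4 h5).2 ⟨h1, h2⟩
    · exact (Pool.Agent.TH399.CC.five_quarters G q h3).2 ⟨h1, h2⟩
  obtain ⟨F2, hF2, hF2'⟩ := Pool.Agent.H655R2.GOD.smul_cover G b (G.exists_cdc hG)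
  have key : ∀ i, ∃ F : Multiset (Finset E), (∀ X ∈ F, G.IsCircuit X) ∧
      ∀ e, F.countP (fun X => e ∈ X) =
        if e ∈ C i then (n i + if Even (n i) then 0 else 2)
        else (2 * n i + if Even (n i) then 0 else 2) := by
    intro i
    apply Pool.Agent.W831.HI.two_valued G hG (C i) (hC i)
    · by_cases h : Even (n i)
      · rw [if_pos h, add_zero]; exact even_two_mul _
      · rw [if_neg h]; exact ⟨n i + 1, by ring⟩
    · split_ifs <;> omega
    · intro h
      by_cases h' : Even (n i)
      · rw [if_pos h', add_zero]; exact h'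
      · exfalso
        rw [if_neg h'] at h
        omega
  choose F0 hF0 hF0' using key
  have key2 : ∀ j, ∃ F : Multiset (Finset E), (∀ X ∈ F, G.IsCircuit X) ∧
      ∀ e, F.countP (fun X => e ∈ X) = m j * if e ∈ O j then 3 else 4 := by
    intro j
    obtain ⟨v, hv⟩ := G.exists_halves
    exact Pool.Agent.H655R2.GOD.smul_cover G (m j)
      (Pool.Agent.H655R2.GOD.cover_four G v hv (G.no_one_cut hG v hv) (O j) (hO j))
  choose F3 hF3 hF3' using key2
  refine ⟨F1 + F2 + (∑ i, F0 i) + (∑ j, F3 j) + D, ?_, fun e => ?_⟩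
  · intro X hX
    rw [Multiset.mem_add, Multiset.mem_add, Multiset.mem_add, Multiset.mem_add] at hX
    rcases hX with (((hX | hX) | hX) | hX) | hX
    · exact hF1 X hX
    · exact hF2 X hX
    · rw [Multiset.mem_sum] at hX
      obtain ⟨i, _, hX⟩ := hX
      exact hF0 i X hX
    · rw [Multiset.mem_sum] at hX
      obtain ⟨i, _, hX⟩ := hX
      exact hF3 i X hX
    · exact hD X hX
  · have h4 : F2.countP (fun X => e ∈ X) = b * 2 := hF2' e
    rw [Multiset.countP_add, Multiset.countP_add, Multiset.countP_add, Multiset.countP_add,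
      hF1' e, h4, Pool.Agent.W831.HI.countP_sum, Pool.Agent.W831.HI.countP_sum]
    have h3 : ∑ j, (F3 j).countP (fun X => e ∈ X) + (∑ j, if e ∈ O j then m j else 0) =
        ∑ j, 4 * m j := by
      rw [← Finset.sum_add_distrib]
      apply Finset.sum_congr rfl
      intro j _
      rw [hF3' j e]
      split_ifs <;> ring
    have h1 : ∑ i, (F0 i).countP (fun X => e ∈ X) + (∑ i, if e ∈ C i then n i else 0) =
        ∑ i, (2 * n i + if Even (n i) then 0 else 2) := by
      rw [← Finset.sum_add_distrib]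
      apply Finset.sum_congr rfl
      intro i _
      rw [hF0' i e]
      split_ifs <;> ring
    have h2 := hp e
    omega

end Pool.Agent.V11162.CC.CircuitsAndNearConstant
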